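import Pool.Agent.Lib.MP_293cc0_an.EG.Stat

/-!
# MP_293cc0_an, Theorem E: forests and the count

`Frs C s t1 S h id pa r tok`: a forest on `S` with `h` trees `0, …, h-1`; `id v` is the tree of `v`,
`r i` the root of the tree `i`, `pa v` the parent of a non-root, `tok v i` the token of the tree `i` in
the column `v`. The tree edges are alive up to `t1`; the tokens of the roots are dead from `s` on.
-/

set_option autoImplicit false

namespace Pool.Agent.Lib.MP_293cc0_an.EG

open Finset

variable {X : Type} [MetricSpace X] {N : ℕ}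

/-- A family of partial potentials on the indices gives savings. -/
theorem sav_of_family (C : Comb X N) {p : ℕ} (S : Finset ℕ) (hS : ∀ i ∈ S, i < N)
    {ι : Type} [Fintype ι] (f : ι → IPF C)
    (hcov : ∀ u ∈ S, ∀ v ∈ S, u < v → ∃ k, (f k).cov u v)
    (hcard : Fintype.card ι + p ≤ S.card) : Sav X p := by
  classical
  have hF : ∀ k, ∃ F : PF X, ∀ i j, (f k).cov i j → F.cov (C.x i) (C.x j) := fun k =>
    (f k).exists_pf
  choose F hF using hF
  have hinj : Set.InjOn C.x (S : Finset ℕ) := fun i hi j hj h =>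
    C.inj i j (hS i (Finset.mem_coe.1 hi)) (hS j (Finset.mem_coe.1 hj)) h
  have hc : (S.image C.x).card = S.card := Finset.card_image_of_injOn hinj
  refine ⟨S.image C.x, S.card - p, by omega, ?_⟩
  let eq := Fintype.equivFin ι
  refine ⟨fun i => if h : i.1 < Fintype.card ι then F (eq.symm ⟨i.1, h⟩) else
    ⟨∅, fun _ => true, fun _ => 0, by simp, by simp⟩, ?_⟩
  intro a ha b hb hab
  rw [Finset.mem_image] at ha hb
  obtain ⟨i, hi, rfl⟩ := ha
  obtain ⟨j, hj, rfl⟩ := hb
  have key : ∃ k, (F k).cov (C.x i) (C.x j) := by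
    rcases lt_trichotomy i j with h | h | h
    · obtain ⟨k, hk⟩ := hcov i hi j hj h
      exact ⟨k, hF k _ _ hk⟩
    · exact absurd (by rw [h]) hab
    · obtain ⟨k, hk⟩ := hcov j hj i hi h
      exact ⟨k, PF.cov_symm (hF k _ _ hk)⟩
  obtain ⟨k, hk⟩ := key
  refine ⟨⟨(eq k).1, by have := (eq k).2; omega⟩, ?_⟩
  simp only
  rw [dif_pos (eq k).2]
  simp only [Fin.eta, Equiv.symm_apply_apply]
  exact hk

/-- A forest. -/
structure Frs (C : Comb X N) (s t1 : ℕ) (S : Finset ℕ) (h : ℕ) (id pa r : ℕ → ℕ)
    (tok : ℕ → ℕ → ℕ) : Prop where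
  le : ∀ v ∈ S, v ≤ t1
  idlt : ∀ v ∈ S, id v < h
  rS : ∀ i, i < h → r i ∈ S ∧ id (r i) = i ∧ r i < s
  rmono : ∀ i j, i < j → j < h → r i < r j
  rmin : ∀ v ∈ S, r (id v) ≤ v
  tokr : ∀ i, i < h → ∀ j, j < i → tok (r i) j ∈ S ∧ tok (r i) j < r i ∧ id (tok (r i) j) = j ∧
    ∀ c, s ≤ c → c + 1 < N → C.e (tok (r i) j) (r i) ≤ C.e (r i) c
  par : ∀ v ∈ S, v ≠ r (id v) → pa v ∈ S ∧ pa v < v ∧ id (pa v) = id v ∧ tok v (id v) = pa v
  alive : ∀ v ∈ S, v ≠ r (id v) → ∀ c, v < c → c ≤ t1 →
    C.e (pa v) c ≤ C.e (pa v) v ∧ C.e v c ≤ C.e (pa v) v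
  tokn : ∀ v ∈ S, v ≠ r (id v) → ∀ i, i < h → r i < v →
    tok v i ∈ S ∧ tok v i < v ∧ id (tok v i) = i ∧ C.e (tok v i) v ≤ C.e (pa v) v

/-- `z` is a descendant of `c`. -/
def Desc (S : Finset ℕ) (id pa r : ℕ → ℕ) : ℕ → ℕ → Prop :=
  Relation.ReflTransGen (fun u w => w ∈ S ∧ w ≠ r (id w) ∧ pa w = u)

theorem Frs.desc_root {C : Comb X N} {s t1 : ℕ} {S : Finset ℕ} {h : ℕ} {id pa r : ℕ → ℕ}
    {tok : ℕ → ℕ → ℕ} (F : Frs C s t1 S h id pa r tok) :
    ∀ z, z ∈ S → Desc S id pa r (r (id z)) z := by
  intro z
  induction z using Nat.strong_induction_on with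
  | _ z ih =>
    intro hz
    by_cases hr : z = r (id z)
    · rw [← hr]
      exact Relation.ReflTransGen.refl
    · obtain ⟨h1, h2, h3, -⟩ := F.par z hz hr
      have h4 := ih (pa z) h2 h1
      rw [h3] at h4
      exact Relation.ReflTransGen.tail h4 ⟨hz, hr, rfl⟩

theorem Frs.desc_le {C : Comb X N} {s t1 : ℕ} {S : Finset ℕ} {h : ℕ} {id pa r : ℕ → ℕ}
    {tok : ℕ → ℕ → ℕ} (F : Frs C s t1 S h id pa r tok) {c z : ℕ}
    (hd : Desc S id pa r c z) : c ≤ z := by
  induction hd with
  | refl => exact le_rfl
  | tail _ h2 ih =>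
    obtain ⟨h3, h4, h5⟩ := h2
    have := (F.par _ h3 h4).2.1
    omega

/-- The server of `u` when the token of its tree is `z`. -/
theorem Frs.server {C : Comb X N} {s t1 : ℕ} {S : Finset ℕ} {h : ℕ} {id pa r : ℕ → ℕ}
    {tok : ℕ → ℕ → ℕ} (F : Frs C s t1 S h id pa r tok) {u z : ℕ} (hz : z ∈ S)
    (huz : u ≠ z) (hid : id u = id z) :
    (∃ c ∈ S, c ≠ r (id c) ∧ pa c = u ∧ id c = id u ∧ c ≤ z ∧ Desc S id pa r c z) ∨
    (u ≠ r (id u) ∧ ¬ Desc S id pa r u z) := by
  by_cases hd : Desc S id pa r u z
  · left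
    rcases Relation.ReflTransGen.cases_head hd with h1 | ⟨c, ⟨h1, h2, h3⟩, h4⟩
    · exact absurd h1 huz
    · refine ⟨c, h1, h2, h3, ?_, F.desc_le h4, h4⟩
      rw [← (F.par c h1 h2).2.2.1, h3]
  · right
    refine ⟨?_, hd⟩
    intro hr
    apply hd
    have := F.desc_root z hz
    rw [← hid, ← hr] at this
    exact this

/-- **The count.** -/
theorem Frs.sav {C : Comb X N} {s t1 : ℕ} {S : Finset ℕ} {h : ℕ} {id pa r : ℕ → ℕ}
    {tok : ℕ → ℕ → ℕ} (F : Frs C s t1 S h id pa r tok) (y : ℕ → ℕ)
    (hy : ∀ i, i < h → y i ∈ S ∧ id (y i) = i ∧ s ≤ y i) (hN : t1 + h ≤ N) : Sav X h := by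
  classical
  by_cases hh : h = 0
  · subst hh
    exact ⟨∅, 0, rfl, fun i => i.elim0, fun a ha => absurd ha (Finset.notMem_empty _)⟩
  have hN1 : t1 + 1 ≤ N := by omega
  -- the hosts
  obtain ⟨Hs, hHs⟩ : ∃ Hs : Finset ℕ, Hs = Finset.Ico (t1 + 1) (t1 + h) := ⟨_, rfl⟩
  have hHm : ∀ v, v ∈ Hs ↔ t1 < v ∧ v < t1 + h := by
    intro v; rw [hHs, Finset.mem_Ico]; omega
  have hSH : ∀ v ∈ S, v ∉ Hs := fun v hv h1 => by
    have := F.le v hv
    have := (hHm v).1 h1
    omega
  -- the token of the tree of `c` in the column `v`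
  let tk : ℕ → ℕ → ℕ := fun v i => if v ∈ S then tok v i else y i
  have tkS : ∀ v ∈ S, ∀ i, tk v i = tok v i := fun v hv i => if_pos hv
  have tkH : ∀ v ∈ Hs, ∀ i, tk v i = y i := fun v hv i => if_neg (fun h => hSH v h hv)
  -- the functions of the non-roots
  have hf : ∀ c, ∃ f : IPF C, c ∈ S → c ≠ r (id c) →
      (∀ i, i < h → r i < c → f.cov (tok c i) c) ∧
      (∀ v, (v ∈ S ∧ c < v) ∨ v ∈ Hs → Desc S id pa r c (tk v (id c)) → f.cov (pa c) v) ∧
      (∀ v, (v ∈ S ∧ c < v) ∨ v ∈ Hs → ¬ Desc S id pa r c (tk v (id c)) → f.cov c v) := by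
    intro c
    by_cases hc : c ∈ S ∧ c ≠ r (id c)
    · obtain ⟨hcS, hcr⟩ := hc
      obtain ⟨p1, p2, p3, p4⟩ := F.par c hcS hcr
      have hct := F.le c hcS
      have hrc : r (id c) < c := lt_of_le_of_ne (F.rmin c hcS) (fun h => hcr h.symm)
      obtain ⟨f, f1, f2, f3⟩ := stat C (c := c) (q := pa c)
        (Z := ((Finset.range h).filter (fun i => r i < c)).image (tok c))
        (V := (S.filter (fun v => c < v)) ∪ Hs)
        (fun v => decide (Desc S id pa r c (tk v (id c)))) (by omega)
        (by
          rw [Finset.mem_image]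
          exact ⟨id c, Finset.mem_filter.2 ⟨Finset.mem_range.2 (F.idlt c hcS), hrc⟩, p4⟩)
        (by
          intro z hz
          rw [Finset.mem_image] at hz
          obtain ⟨i, hi, rfl⟩ := hz
          rw [Finset.mem_filter, Finset.mem_range] at hi
          exact (F.tokn c hcS hcr i hi.1 hi.2).2.1)
        (by
          intro z hz
          rw [Finset.mem_image] at hz
          obtain ⟨i, hi, rfl⟩ := hz
          rw [Finset.mem_filter, Finset.mem_range] at hi
          exact (F.tokn c hcS hcr i hi.1 hi.2).2.2.2)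
        (by
          intro v hv
          rw [Finset.mem_union, Finset.mem_filter] at hv
          rcases hv with ⟨h1, h2⟩ | h1
          · have := F.le v h1
            exact ⟨h2, by omega⟩
          · have := (hHm v).1 h1
            exact ⟨by omega, by omega⟩)
        (by
          intro v hv v' hv' hlt hne
          rw [Finset.mem_union, Finset.mem_filter] at hv hv'
          rcases hv with ⟨h1, h2⟩ | h1
          · exact F.alive c hcS hcr v h2 (F.le v h1)
          · exfalso
            rcases hv' with ⟨h1', h2'⟩ | h1'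
            · have a1 := (hHm v).1 h1
              have a2 := F.le v' h1'
              omega
            · apply hne
              show decide (Desc S id pa r c (tk v (id c))) = decide (Desc S id pa r c (tk v' (id c)))
              rw [tkH v h1, tkH v' h1'])
      refine ⟨f, fun _ _ => ⟨?_, ?_, ?_⟩⟩
      · intro i hi hri
        apply f1
        rw [Finset.mem_image]
        exact ⟨i, Finset.mem_filter.2 ⟨Finset.mem_range.2 hi, hri⟩, rfl⟩
      · intro v hv hd
        apply f2 v
        · rw [Finset.mem_union, Finset.mem_filter]; exact hv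
        · exact decide_eq_true hd
      · intro v hv hd
        apply f3 v
        · rw [Finset.mem_union, Finset.mem_filter]; exact hv
        · exact decide_eq_false hd
    · refine ⟨⟨∅, fun _ => true, fun _ => 0, by simp, by simp, by simp⟩, fun h1 h2 => ?_⟩
      exact absurd ⟨h1, h2⟩ hc
  choose f hf using hf
  -- the functions of the roots
  have hg : ∀ i, ∃ g : IPF C, 1 ≤ i → i < h →
      (∀ j, j < i → g.cov (tok (r i) j) (r i)) ∧ (∀ j, j < h → g.cov (y j) (t1 + i)) ∧
      (∀ v, t1 < v → v < t1 + i → g.cov v (t1 + i)) := by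
    intro i
    by_cases hi : 1 ≤ i ∧ i < h
    · obtain ⟨hi1, hi2⟩ := hi
      obtain ⟨g, g1, g2⟩ := host C (r := r i) (z := t1 + i)
        (A := (Finset.range i).image (tok (r i)))
        (B := (Finset.range h).image y ∪ Finset.Ico (t1 + 1) (t1 + i)) (by omega)
        (by
          rw [Finset.image_nonempty, Finset.nonempty_range_iff]
          omega)
        (by
          apply Finset.Nonempty.inl
          rw [Finset.image_nonempty, Finset.nonempty_range_iff]
          omega)
        (by
          intro a ha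
          rw [Finset.mem_image] at ha
          obtain ⟨j, hj, rfl⟩ := ha
          rw [Finset.mem_range] at hj
          exact (F.tokr i hi2 j hj).2.1)
        (by
          intro b hb
          have hrs := (F.rS i hi2).2.2
          have hrt := F.le _ (F.rS i hi2).1
          rw [Finset.mem_union, Finset.mem_image, Finset.mem_Ico] at hb
          rcases hb with ⟨j, hj, rfl⟩ | hb
          · rw [Finset.mem_range] at hj
            obtain ⟨y1, y2, y3⟩ := hy j hj
            have := F.le _ y1
            exact ⟨by omega, by omega⟩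
          · exact ⟨by omega, hb.2⟩)
        (by
          intro a ha b hb
          rw [Finset.mem_image] at ha
          obtain ⟨j, hj, rfl⟩ := ha
          rw [Finset.mem_range] at hj
          have hrs := (F.rS i hi2).2.2
          rw [Finset.mem_union, Finset.mem_image, Finset.mem_Ico] at hb
          rcases hb with ⟨j', hj', rfl⟩ | hb
          · rw [Finset.mem_range] at hj'
            obtain ⟨y1, y2, y3⟩ := hy j' hj'
            have := F.le _ y1
            exact (F.tokr i hi2 j hj).2.2.2 _ y3 (by omega)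
          · have hs : s ≤ t1 := by
              obtain ⟨y1, y2, y3⟩ := hy 0 (by omega)
              have := F.le _ y1
              omega
            exact (F.tokr i hi2 j hj).2.2.2 _ (by omega) (by omega))
      refine ⟨g, fun _ _ => ⟨?_, ?_, ?_⟩⟩
      · intro j hj
        apply g1
        exact Finset.mem_image_of_mem _ (Finset.mem_range.2 hj)
      · intro j hj
        apply g2
        exact Finset.mem_union_left _ (Finset.mem_image_of_mem _ (Finset.mem_range.2 hj))
      · intro v hv1 hv2
        apply g2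
        exact Finset.mem_union_right _ (Finset.mem_Ico.2 ⟨by omega, hv2⟩)
    · refine ⟨⟨∅, fun _ => true, fun _ => 0, by simp, by simp, by simp⟩, fun h1 h2 => ?_⟩
      exact absurd ⟨h1, h2⟩ hi
  choose g hg using hg
  -- the family
  let NR : Finset ℕ := S.filter (fun c => c ≠ r (id c))
  let fam : NR ⊕ Fin (h - 1) → IPF C := Sum.elim (fun c => f c.1) (fun i => g (i.1 + 1))
  have famf : ∀ c, c ∈ S → c ≠ r (id c) → ∀ u v, (f c).cov u v → ∃ k, (fam k).cov u v := by
    intro c h1 h2 u v h3
    exact ⟨Sum.inl ⟨c, Finset.mem_filter.2 ⟨h1, h2⟩⟩, h3⟩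
  have famg : ∀ i, 1 ≤ i → i < h → ∀ u v, (g i).cov u v → ∃ k, (fam k).cov u v := by
    intro i h1 h2 u v h3
    refine ⟨Sum.inr ⟨i - 1, by omega⟩, ?_⟩
    show (g (i - 1 + 1)).cov u v
    rw [show i - 1 + 1 = i by omega]
    exact h3
  have hHc : Hs.card = h - 1 := by rw [hHs, Nat.card_Ico]; omega
  have hdisj : Disjoint S Hs := by
    rw [Finset.disjoint_left]
    exact hSH
  have hNRc : NR.card + h = S.card := by
    have h1 : (S.filter (fun c => ¬ c ≠ r (id c))).card = h := by
      have h2 : S.filter (fun c => ¬ c ≠ r (id c)) = (Finset.range h).image r := by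
        ext v
        rw [Finset.mem_filter, Finset.mem_image, not_not]
        constructor
        · rintro ⟨h1, h2⟩
          exact ⟨id v, Finset.mem_range.2 (F.idlt v h1), h2.symm⟩
        · rintro ⟨i, hi, rfl⟩
          rw [Finset.mem_range] at hi
          obtain ⟨a1, a2, -⟩ := F.rS i hi
          exact ⟨a1, by rw [a2]⟩
      rw [h2, Finset.card_image_of_injOn, Finset.card_range]
      intro i hi j hj hij
      rw [Finset.mem_coe, Finset.mem_range] at hi hj
      have a1 := (F.rS i hi).2.1
      have a2 := (F.rS j hj).2.1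
      have hij' : r i = r j := hij
      rw [hij'] at a1
      omega
    have h2 := Finset.card_filter_add_card_filter_not (s := S) (fun c => c ≠ r (id c))
    rw [h1] at h2
    exact h2
  refine sav_of_family C (S ∪ Hs) ?_ fam ?_ ?_
  · intro v hv
    rcases Finset.mem_union.1 hv with h1 | h1
    · have := F.le v h1; omega
    · have := (hHm v).1 h1; omega
  · intro u hu v hv huv
    rw [Finset.mem_union] at hu hv
    rcases hv with hv | hv
    · -- the column `v` is in `S`
      have huS : u ∈ S := by
        rcases hu with h1 | h1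
        · exact h1
        · have a1 := (hHm u).1 h1
          have a2 := F.le v hv
          omega
      have hidu := F.idlt u huS
      have hru := F.rmin u huS
      by_cases hr : v = r (id v)
      · -- `v` is a root
        have hidv := F.idlt v hv
        have hlt : id u < id v := by
          by_contra hcon
          rcases Nat.lt_or_ge (id v) (id u) with h1 | h1
          · have := F.rmono _ _ h1 hidu
            omega
          · have h2 : id u = id v := by omega
            rw [h2] at hru
            omega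
        obtain ⟨t1', t2', t3', -⟩ := F.tokr (id v) hidv (id u) hlt
        rw [← hr] at t1' t2' t3'
        by_cases hut : u = tok v (id u)
        · obtain ⟨g1, -, -⟩ := hg (id v) (by omega) hidv
          have := g1 (id u) hlt
          rw [← hr, ← hut] at this
          exact famg _ (by omega) hidv _ _ this
        · rcases F.server t1' hut t3'.symm with ⟨c, c1, c2, c3, c4, c5, c6⟩ | ⟨c1, c2⟩
          · obtain ⟨-, f2, -⟩ := hf c c1 c2
            have := f2 v (Or.inl ⟨hv, by omega⟩) (by rw [tkS v hv, c4]; exact c6)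
            rw [c3] at this
            exact famf c c1 c2 _ _ this
          · obtain ⟨-, -, f3⟩ := hf u huS c1
            exact famf u huS c1 _ _ (f3 v (Or.inl ⟨hv, huv⟩) (by rw [tkS v hv]; exact c2))
      · -- `v` is not a root
        obtain ⟨t1', t2', t3', -⟩ := F.tokn v hv hr (id u) hidu (by omega)
        by_cases hut : u = tok v (id u)
        · obtain ⟨f1, -, -⟩ := hf v hv hr
          have := f1 (id u) hidu (by omega)
          rw [← hut] at this
          exact famf v hv hr _ _ this
        · rcases F.server t1' hut t3'.symm with ⟨c, c1, c2, c3, c4, c5, c6⟩ | ⟨c1, c2⟩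
          · obtain ⟨-, f2, -⟩ := hf c c1 c2
            have := f2 v (Or.inl ⟨hv, by omega⟩) (by rw [tkS v hv, c4]; exact c6)
            rw [c3] at this
            exact famf c c1 c2 _ _ this
          · obtain ⟨-, -, f3⟩ := hf u huS c1
            exact famf u huS c1 _ _ (f3 v (Or.inl ⟨hv, huv⟩) (by rw [tkS v hv]; exact c2))
    · -- the column `v` is a host
      have hv' := (hHm v).1 hv
      obtain ⟨i, rfl⟩ : ∃ i, v = t1 + i := ⟨v - t1, by omega⟩
      obtain ⟨g1, g2, g3⟩ := hg i (by omega) (by omega)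
      rcases hu with huS | huH
      · have hidu := F.idlt u huS
        obtain ⟨y1, y2, y3⟩ := hy (id u) hidu
        by_cases hut : u = y (id u)
        · have := g2 (id u) hidu
          rw [← hut] at this
          exact famg i (by omega) (by omega) _ _ this
        · rcases F.server y1 hut y2.symm with ⟨c, c1, c2, c3, c4, c5, c6⟩ | ⟨c1, c2⟩
          · obtain ⟨-, f2, -⟩ := hf c c1 c2
            have := f2 _ (Or.inr hv) (by rw [tkH _ hv, c4]; exact c6)
            rw [c3] at this
            exact famf c c1 c2 _ _ this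
          · obtain ⟨-, -, f3⟩ := hf u huS c1
            exact famf u huS c1 _ _ (f3 _ (Or.inr hv) (by rw [tkH _ hv]; exact c2))
      · have hu' := (hHm u).1 huH
        exact famg i (by omega) (by omega) _ _ (g3 u hu'.1 huv)
  · rw [Fintype.card_sum, Fintype.card_coe, Fintype.card_fin, Finset.card_union_of_disjoint hdisj,
      hHc]
    omega

end Pool.Agent.Lib.MP_293cc0_an.EG
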