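import Pool.Agent.Lib.MP_293cc0_an.EG.Step

/-!
# MP_293cc0_an, Theorem E: first fit and extension
-/

set_option autoImplicit false

namespace Pool.Agent.Lib.MP_293cc0_an.EG

open Finset

variable {X : Type} [MetricSpace X] {N : ℕ}

/-- Class E: the pair `a < b` is alive (U) in the columns `c < τ a b` and dead (L) afterwards. -/
structure ClassE (C : Comb X N) (τ : ℕ → ℕ → ℕ) : Prop where
  alive : ∀ a b c, a < b → b < c → c < τ a b → c + 1 < N →
    C.e a c ≤ C.e a b ∧ C.e b c ≤ C.e a b
  dead : ∀ a b c, a < b → b < c → τ a b ≤ c → c + 1 < N →
    C.e a b ≤ C.e a c ∧ C.e a b ≤ C.e b c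

theorem ClassE.fact {C : Comb X N} {τ : ℕ → ℕ → ℕ} (hE : ClassE C τ) {t1 u q v : ℕ}
    (hN : t1 + 1 < N) (huv : u < v) (hqv : q < v) (hv : v < t1) (hu : ¬ t1 < τ u v)
    (hq : t1 < τ q v) : C.e u v ≤ C.e q v :=
  le_trans (hE.dead u v t1 huv hv (by omega) hN).2 (hE.alive q v t1 hqv hv hq hN).2

/-- There is no set of `p` pairwise heavy points before `t1`. -/
def NoClq (τ : ℕ → ℕ → ℕ) (t1 p : ℕ) : Prop :=
  ∀ Q : Finset ℕ, (∀ v ∈ Q, v < t1) → (∀ u ∈ Q, ∀ v ∈ Q, u < v → t1 < τ u v) → Q.card < p

theorem phase1 {C : Comb X N} {τ : ℕ → ℕ → ℕ} (hE : ClassE C τ) {p s t1 : ℕ} (hp : 1 ≤ p)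
    (hst : s ≤ t1) (hN : t1 + 1 < N) (I : Finset ℕ) (hI : ∀ v ∈ I, v < s)
    (hA1 : ∀ u ∈ I, ∀ v ∈ I, u < v → τ u v ≤ s ∨ t1 < τ u v) (hA4 : NoClq τ t1 p)
    (hA3 : p * p ≤ I.card) :
    ∃ (S : Finset ℕ) (id pa r : ℕ → ℕ) (tok : ℕ → ℕ → ℕ), Frs C s t1 S p id pa r tok ∧
      S ⊆ I := by
  classical
  have main : ∀ n, (∃ (S : Finset ℕ) (id pa r : ℕ → ℕ) (tok : ℕ → ℕ → ℕ),
      Frs C s t1 S p id pa r tok ∧ S ⊆ I) ∨
      (∃ (S : Finset ℕ) (h : ℕ) (id pa r : ℕ → ℕ) (tok : ℕ → ℕ → ℕ), h < p ∧
        Frs C s t1 S h id pa r tok ∧ S = I.filter (fun v => v < n) ∧
        ∀ u ∈ S, ∀ v ∈ S, u < v → id u = id v → t1 < τ u v) := by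
    intro n
    induction n with
    | zero =>
      right
      have hemp : I.filter (fun v => v < 0) = ∅ := by
        apply Finset.filter_eq_empty_iff.2
        intro v _
        omega
      refine ⟨∅, 0, fun _ => 0, fun _ => 0, fun _ => 0, fun _ _ => 0, by omega, ?_, hemp.symm, ?_⟩
      · refine ⟨?_, ?_, ?_, ?_, ?_, ?_, ?_, ?_, ?_⟩
        · intro v hv; exact absurd hv (Finset.notMem_empty _)
        · intro v hv; exact absurd hv (Finset.notMem_empty _)
        · intro i hi; omega
        · intro i j hij hj; omega
        · intro v hv; exact absurd hv (Finset.notMem_empty _)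
        · intro i hi; omega
        · intro v hv; exact absurd hv (Finset.notMem_empty _)
        · intro v hv; exact absurd hv (Finset.notMem_empty _)
        · intro v hv; exact absurd hv (Finset.notMem_empty _)
      · intro v hv; exact absurd hv (Finset.notMem_empty _)
    | succ n ih =>
      rcases ih with ih | ⟨S, h, id, pa, r, tok, hh, F, hS, hcl⟩
      · exact Or.inl ih
      · by_cases hn : n ∈ I
        · have hns := hI n hn
          have hnt : n < t1 := by omega
          have hSlt : ∀ u ∈ S, u < n := by
            intro u hu
            rw [hS, Finset.mem_filter] at hu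
            exact hu.2
          have hSI : ∀ u ∈ S, u ∈ I := by
            intro u hu
            rw [hS, Finset.mem_filter] at hu
            exact hu.1
          have hS' : insert n S = I.filter (fun v => v < n + 1) := by
            ext v
            rw [Finset.mem_insert, hS, Finset.mem_filter, Finset.mem_filter]
            constructor
            · rintro (rfl | ⟨h1, h2⟩)
              · exact ⟨hn, by omega⟩
              · exact ⟨h1, by omega⟩
            · rintro ⟨h1, h2⟩
              by_cases h3 : v = n
              · exact Or.inl h3
              · exact Or.inr ⟨h1, by omega⟩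
          by_cases hJ : ∃ q ∈ S, ∀ x ∈ S, id x = id q → t1 < τ x n
          · -- a node
            obtain ⟨q0, hq0, hq0h⟩ := hJ
            have hne : (S.filter (fun q => ∀ x ∈ S, id x = id q → t1 < τ x n)).Nonempty :=
              ⟨q0, Finset.mem_filter.2 ⟨hq0, hq0h⟩⟩
            obtain ⟨q, hq, hmax⟩ := Finset.exists_max_image _ (fun q => C.e q n) hne
            rw [Finset.mem_filter] at hq
            obtain ⟨hqS, hqh⟩ := hq
            have hqn := hqh q hqS rfl
            have hqlt := hSlt q hqS
            have htk : ∀ i, ∃ x, i < h → x ∈ S ∧ id x = i ∧ C.e x n ≤ C.e q n ∧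
                (i = id q → x = q) := by
              intro i
              by_cases hi : i < h
              · by_cases hiq : i = id q
                · exact ⟨q, fun _ => ⟨hqS, hiq.symm, le_rfl, fun _ => rfl⟩⟩
                · by_cases hx : ∃ x ∈ S, id x = i ∧ ¬ t1 < τ x n
                  · obtain ⟨x, h1, h2, h3⟩ := hx
                    exact ⟨x, fun _ => ⟨h1, h2, hE.fact hN (hSlt x h1) hqlt hnt h3 hqn,
                      fun h => absurd h hiq⟩⟩
                  · obtain ⟨a1, a2, a3⟩ := F.rS i hi
                    refine ⟨r i, fun _ => ⟨a1, a2, ?_, fun h => absurd h hiq⟩⟩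
                    apply hmax
                    rw [Finset.mem_filter]
                    refine ⟨a1, fun x hx1 hx2 => ?_⟩
                    by_contra hcon
                    exact hx ⟨x, hx1, by rw [hx2, a2], hcon⟩
              · exact ⟨0, fun h => absurd h hi⟩
            choose tk htk using htk
            have F' := F.addNode (v := n) hSlt (by omega) hqS (by
              intro c hc1 hc2
              exact hE.alive q n c hqlt hc1 (by omega) (by omega)) tk
              (fun i hi => ⟨(htk i hi).1, (htk i hi).2.1, (htk i hi).2.2.1⟩)
              ((htk (id q) (F.idlt q hqS)).2.2.2 rfl)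
            right
            refine ⟨_, h, _, _, _, _, hh, F', hS', ?_⟩
            intro u hu v hv huv hid
            rcases Finset.mem_insert.1 hv with hv1 | hv2
            · rcases Finset.mem_insert.1 hu with hu1 | hu2
              · omega
              · rw [hv1, Function.update_self, Function.update_of_ne (by omega)] at hid
                rw [hv1]
                exact hqh u hu2 hid
            · rcases Finset.mem_insert.1 hu with hu1 | hu2
              · have := hSlt v hv2; omega
              · rw [Function.update_of_ne (by have := hSlt u hu2; omega),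
                  Function.update_of_ne (by have := hSlt v hv2; omega)] at hid
                exact hcl u hu2 v hv2 huv hid
          · -- a root
            have htk : ∀ j, ∃ x, j < h → x ∈ S ∧ id x = j ∧ ¬ t1 < τ x n := by
              intro j
              by_cases hj : j < h
              · obtain ⟨a1, a2, a3⟩ := F.rS j hj
                have hnot : ¬ ∀ x ∈ S, id x = id (r j) → t1 < τ x n := fun hall =>
                  hJ ⟨r j, a1, hall⟩
                by_cases hx : ∃ x ∈ S, id x = id (r j) ∧ ¬ t1 < τ x n
                · obtain ⟨x, hx1, hx2, hx3⟩ := hx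
                  exact ⟨x, fun _ => ⟨hx1, by rw [hx2, a2], hx3⟩⟩
                · exfalso
                  apply hnot
                  intro x hx1 hx2
                  by_contra hcon
                  exact hx ⟨x, hx1, hx2, hcon⟩
              · exact ⟨0, fun h => absurd h hj⟩
            choose tk htk using htk
            have F' := F.addRoot (v := n) hSlt hns (by omega) tk (by
              intro j hj
              obtain ⟨h1, h2, h3⟩ := htk j hj
              refine ⟨h1, h2, fun c hc1 hc2 => ?_⟩
              have h4 : τ (tk j) n ≤ s := by
                rcases hA1 _ (hSI _ h1) n hn (hSlt _ h1) with h5 | h5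
                · exact h5
                · exact absurd h5 h3
              exact (hE.dead (tk j) n c (hSlt _ h1) (by omega) (by omega) hc2).2)
            by_cases hh1 : h + 1 = p
            · left
              rw [hh1] at F'
              refine ⟨_, _, _, _, _, F', ?_⟩
              intro u hu
              rcases Finset.mem_insert.1 hu with rfl | hu
              · exact hn
              · exact hSI u hu
            · right
              refine ⟨_, h + 1, _, _, _, _, by omega, F', hS', ?_⟩
              intro u hu v hv huv hid
              rcases Finset.mem_insert.1 hv with hv1 | hv2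
              · rcases Finset.mem_insert.1 hu with hu1 | hu2
                · omega
                · rw [hv1, Function.update_self, Function.update_of_ne (by omega)] at hid
                  have := F.idlt u hu2
                  omega
              · rcases Finset.mem_insert.1 hu with hu1 | hu2
                · have := hSlt v hv2; omega
                · rw [Function.update_of_ne (by have := hSlt u hu2; omega),
                    Function.update_of_ne (by have := hSlt v hv2; omega)] at hid
                  exact hcl u hu2 v hv2 huv hid
        · right
          refine ⟨S, h, id, pa, r, tok, hh, F, ?_, hcl⟩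
          rw [hS]
          apply Finset.filter_congr
          intro v hv
          constructor
          · intro h1; omega
          · intro h1
            by_contra h2
            have : v = n := by omega
            exact hn (this ▸ hv)
  rcases main s with h1 | ⟨S, h, id, pa, r, tok, hh, F, hS, hcl⟩
  · exact h1
  · exfalso
    have hSI : S = I := by
      rw [hS]
      exact Finset.filter_true_of_mem hI
    have hcard : S.card ≤ h * (p - 1) := by
      rw [Finset.card_eq_sum_card_fiberwise (f := id) (t := Finset.range h)
        (fun v hv => Finset.mem_coe.2 (Finset.mem_range.2 (F.idlt v (Finset.mem_coe.1 hv))))]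
      calc ∑ i ∈ Finset.range h, (S.filter (fun v => id v = i)).card
          ≤ ∑ i ∈ Finset.range h, (p - 1) := by
            apply Finset.sum_le_sum
            intro i _
            have := hA4 (S.filter (fun v => id v = i))
              (fun v hv => by
                have h1 := (Finset.mem_filter.1 hv).1
                rw [hSI] at h1
                have := hI v h1
                omega)
              (fun u hu v hv huv => by
                rw [Finset.mem_filter] at hu hv
                exact hcl u hu.1 v hv.1 huv (by rw [hu.2, hv.2]))
            omega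
        _ = h * (p - 1) := by rw [Finset.sum_const, smul_eq_mul, Finset.card_range]
    rw [hSI] at hcard
    have h2 : h * (p - 1) < p * p := by
      calc h * (p - 1) ≤ p * (p - 1) := Nat.mul_le_mul_right _ (le_of_lt hh)
        _ < p * p := Nat.mul_lt_mul_of_pos_left (by omega) (by omega)
    omega

end Pool.Agent.Lib.MP_293cc0_an.EG
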