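import Pool.Agent.Lib.MP_293cc0_an.Comb

/-!
# MP_293cc0_an, Theorem E: the two kinds of functions

* `stat`: a star at `c` with tokens `Z`, top token `q`, and afterwards a service of `q` or of `c` in
  every column of `V`; the pair `q, c` has to be alive at the earlier of two columns with different
  services;
* `host`: a star at `r` with tokens `A` and at a later column `z` with tokens `B`, where
  `e a r ≤ e b r` for `a ∈ A`, `b ∈ B`.
-/

set_option autoImplicit false

namespace Pool.Agent.Lib.MP_293cc0_an.EG

open Finset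

variable {X : Type} [MetricSpace X] {N : ℕ}

theorem stat (C : Comb X N) {c q : ℕ} {Z V : Finset ℕ} (σ : ℕ → Bool) (hc : c < N)
    (hqZ : q ∈ Z) (hZ : ∀ z ∈ Z, z < c) (htop : ∀ z ∈ Z, C.e z c ≤ C.e q c)
    (hV : ∀ v ∈ V, c < v ∧ v < N)
    (hal : ∀ v ∈ V, ∀ v' ∈ V, v < v' → σ v ≠ σ v' → C.e q v ≤ C.e q c ∧ C.e c v ≤ C.e q c) :
    ∃ f : IPF C, (∀ z ∈ Z, f.cov z c) ∧ (∀ v ∈ V, σ v = true → f.cov q v) ∧
      (∀ v ∈ V, σ v = false → f.cov c v) := by
  classical
  have hqc : q < c := hZ q hqZ
  have hcZ : c ∉ Z := fun h => lt_irrefl _ (hZ c h)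
  have hcV : c ∉ V := fun h => lt_irrefl _ (hV c h).1
  have hZV : ∀ z ∈ Z, z ∉ V := fun z hz h => by
    have h1 := hZ z hz
    have h2 := (hV z h).1
    omega
  let sd : ℕ → Bool := fun u => if u = c then true else if u ∈ V then σ u else false
  let p : ℕ → ℝ := fun u => if u ∈ V then
    (if σ u = true then dist (C.x q) (C.x u) - dist (C.x q) (C.x c) else dist (C.x c) (C.x u))
    else dist (C.x u) (C.x c)
  have s1 : sd c = true := if_pos rfl
  have s2 : ∀ z ∈ Z, sd z = false := by
    intro z hz
    show (if z = c then true else if z ∈ V then σ z else false) = false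
    rw [if_neg (fun h : z = c => hcZ (h ▸ hz)), if_neg (hZV z hz)]
  have s3 : ∀ v ∈ V, sd v = σ v := by
    intro v hv
    show (if v = c then true else if v ∈ V then σ v else false) = σ v
    rw [if_neg (fun h : v = c => hcV (h ▸ hv)), if_pos hv]
  have p1 : p c = 0 := by
    show (if c ∈ V then _ else _) = _
    rw [if_neg hcV, dist_self]
  have p2 : ∀ z ∈ Z, p z = dist (C.x z) (C.x c) := by
    intro z hz
    show (if z ∈ V then _ else _) = _
    rw [if_neg (hZV z hz)]
  have p3 : ∀ v ∈ V, σ v = true → p v = dist (C.x q) (C.x v) - dist (C.x q) (C.x c) := by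
    intro v hv h
    show (if v ∈ V then _ else _) = _
    rw [if_pos hv, if_pos h]
  have p4 : ∀ v ∈ V, σ v = false → p v = dist (C.x c) (C.x v) := by
    intro v hv h
    show (if v ∈ V then _ else _) = _
    rw [if_pos hv, if_neg (by rw [h]; simp)]
  have hD : ∀ u, u ∈ insert c (Z ∪ V) ↔ u = c ∨ u ∈ Z ∨ u ∈ V := by
    intro u
    rw [Finset.mem_insert, Finset.mem_union]
  let f : IPF C :=
    { D := insert c (Z ∪ V)
      s := sd
      p := p
      sub := by
        intro u hu
        rcases (hD u).1 hu with rfl | hu | hu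
        · exact hc
        · exact lt_trans (hZ u hu) hc
        · exact (hV u hu).2
      feas := by
        intro u hu v hv h1 h2
        -- `u` true, `v` false
        have hu' : u = c ∨ (u ∈ V ∧ σ u = true) := by
          rcases (hD u).1 hu with rfl | hu | hu
          · exact Or.inl rfl
          · rw [s2 u hu] at h1; exact absurd h1 (by simp)
          · rw [s3 u hu] at h1; exact Or.inr ⟨hu, h1⟩
        have hv' : v ∈ Z ∨ (v ∈ V ∧ σ v = false) := by
          rcases (hD v).1 hv with rfl | hv | hv
          · rw [s1] at h2; exact absurd h2 (by simp)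
          · exact Or.inl hv
          · rw [s3 v hv] at h2; exact Or.inr ⟨hv, h2⟩
        rcases hu' with rfl | ⟨huV, huσ⟩
        · rcases hv' with hv' | ⟨hvV, hvσ⟩
          · rw [p1, p2 v hv', zero_add, dist_comm]
          · rw [p1, p4 v hvV hvσ, zero_add]
        · rcases hv' with hv' | ⟨hvV, hvσ⟩
          · rw [p3 u huV huσ, p2 v hv']
            by_cases hvq : v = q
            · subst hvq
              have h3 := dist_comm (C.x u) (C.x v)
              linarith
            · have h3 := hZ v hv'
              have h4 := hV u huV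
              have := C.key c v q u h4.1 (by omega) (by omega) h4.2 (by omega) (by omega)
                hvq (by rw [C.symm c v, C.symm c q]; exact htop v hv')
              have h5 := dist_comm (C.x c) (C.x v)
              have h6 := dist_comm (C.x c) (C.x q)
              have h7 := dist_comm (C.x v) (C.x u)
              linarith
          · rw [p3 u huV huσ, p4 v hvV hvσ]
            have hne : σ u ≠ σ v := by rw [huσ, hvσ]; simp
            have huv : u ≠ v := fun h => hne (by rw [h])
            have h4 := hV u huV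
            have h5 := hV v hvV
            rcases Nat.lt_or_ge u v with hlt | hge
            · have h6 := hal u huV v hvV hlt hne
              have := C.key q u c v (by omega) hlt (by omega) h5.2 (by omega) (by omega)
                (by omega) h6.1
              have h7 := dist_comm (C.x u) (C.x v)
              linarith
            · have hlt : v < u := by omega
              have h6 := hal v hvV u huV hlt (fun h => hne h.symm)
              have := C.key c v q u (by omega) hlt (by omega) h4.2 (by omega) (by omega)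
                (by omega) (by rw [C.symm c q]; exact h6.2)
              have h7 := dist_comm (C.x u) (C.x v)
              have h8 := dist_comm (C.x c) (C.x q)
              linarith
      tight := by
        intro u hu
        rcases (hD u).1 hu with rfl | hu | hu
        · refine ⟨q, (hD q).2 (Or.inr (Or.inl hqZ)), by rw [s1, s2 q hqZ]; simp, ?_⟩
          rw [p1, p2 q hqZ, zero_add, dist_comm]
        · refine ⟨c, (hD c).2 (Or.inl rfl), by rw [s1, s2 u hu]; simp, ?_⟩
          rw [p1, p2 u hu, add_zero]
        · cases h : σ u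
          · refine ⟨c, (hD c).2 (Or.inl rfl), by rw [s1, s3 u hu, h]; simp, ?_⟩
            rw [p1, p4 u hu h, add_zero, dist_comm]
          · refine ⟨q, (hD q).2 (Or.inr (Or.inl hqZ)), by rw [s3 u hu, s2 q hqZ, h]; simp, ?_⟩
            rw [p3 u hu h, p2 q hqZ, dist_comm (C.x u) (C.x q)]
            ring }
  refine ⟨f, ?_, ?_, ?_⟩
  · intro z hz
    refine ⟨(hD z).2 (Or.inr (Or.inl hz)), (hD c).2 (Or.inl rfl), ?_, ?_⟩
    · show sd z ≠ sd c
      rw [s1, s2 z hz]; simp
    · show p z + p c = _
      rw [p1, p2 z hz, add_zero]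
  · intro v hv h
    refine ⟨(hD q).2 (Or.inr (Or.inl hqZ)), (hD v).2 (Or.inr (Or.inr hv)), ?_, ?_⟩
    · show sd q ≠ sd v
      rw [s2 q hqZ, s3 v hv, h]; simp
    · show p q + p v = _
      rw [p2 q hqZ, p3 v hv h]; ring
  · intro v hv h
    refine ⟨(hD c).2 (Or.inl rfl), (hD v).2 (Or.inr (Or.inr hv)), ?_, ?_⟩
    · show sd c ≠ sd v
      rw [s1, s3 v hv, h]; simp
    · show p c + p v = _
      rw [p1, p4 v hv h, zero_add]

theorem host (C : Comb X N) {r z : ℕ} {A B : Finset ℕ} (hz : z < N) (hA : A.Nonempty)
    (hB : B.Nonempty) (hAr : ∀ a ∈ A, a < r) (hrB : ∀ b ∈ B, r < b ∧ b < z)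
    (h : ∀ a ∈ A, ∀ b ∈ B, C.e a r ≤ C.e r b) :
    ∃ f : IPF C, (∀ a ∈ A, f.cov a r) ∧ (∀ b ∈ B, f.cov b z) := by
  classical
  obtain ⟨b0, hb0⟩ := hB
  have hrz : r < z := lt_trans (hrB b0 hb0).1 (hrB b0 hb0).2
  obtain ⟨a0, ha0, hmin⟩ := Finset.exists_min_image A
    (fun a => dist (C.x a) (C.x z) - dist (C.x a) (C.x r)) hA
  obtain ⟨δ, hδ⟩ : ∃ δ, δ = dist (C.x a0) (C.x z) - dist (C.x a0) (C.x r) := ⟨_, rfl⟩
  have key1 : ∀ a ∈ A, δ ≤ dist (C.x a) (C.x z) - dist (C.x a) (C.x r) := by
    intro a ha
    rw [hδ]
    exact hmin a ha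
  have key2 : ∀ b ∈ B, dist (C.x b) (C.x z) - dist (C.x b) (C.x r) ≤ δ := by
    intro b hb
    have h1 := hAr a0 ha0
    have h2 := hrB b hb
    have := C.key r a0 b z hrz (by omega) h2.2 hz (by omega) (by omega) (by omega)
      (by rw [C.symm r a0]; exact h a0 ha0 b hb)
    have h3 := dist_comm (C.x r) (C.x a0)
    have h4 := dist_comm (C.x r) (C.x b)
    linarith
  have hrA : r ∉ A := fun h => lt_irrefl _ (hAr r h)
  have hrB' : r ∉ B := fun h => lt_irrefl _ (hrB r h).1
  have hzA : z ∉ A := fun h => by have := hAr z h; omega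
  have hzB : z ∉ B := fun h => lt_irrefl _ (hrB z h).2
  have hAB : ∀ a ∈ A, a ∉ B := fun a ha h => by
    have h1 := hAr a ha
    have h2 := (hrB a h).1
    omega
  let sd : ℕ → Bool := fun u => decide (u = r ∨ u = z)
  let p : ℕ → ℝ := fun u => if u = z then δ else if u ∈ B then dist (C.x u) (C.x z) - δ else
    dist (C.x u) (C.x r)
  have s1 : sd r = true := by simp [sd]
  have s2 : sd z = true := by simp [sd]
  have s3 : ∀ a ∈ A, sd a = false := by
    intro a ha
    have h1 : a ≠ r := fun h => hrA (h ▸ ha)
    have h2 : a ≠ z := fun h => hzA (h ▸ ha)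
    simp [sd, h1, h2]
  have s4 : ∀ b ∈ B, sd b = false := by
    intro b hb
    have h1 : b ≠ r := fun h => hrB' (h ▸ hb)
    have h2 : b ≠ z := fun h => hzB (h ▸ hb)
    simp [sd, h1, h2]
  have p1 : p r = 0 := by
    show (if r = z then δ else if r ∈ B then _ else _) = _
    rw [if_neg (ne_of_lt hrz), if_neg hrB', dist_self]
  have p2 : p z = δ := if_pos rfl
  have p3 : ∀ a ∈ A, p a = dist (C.x a) (C.x r) := by
    intro a ha
    show (if a = z then δ else if a ∈ B then _ else _) = _
    rw [if_neg (fun h : a = z => hzA (h ▸ ha)), if_neg (hAB a ha)]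
  have p4 : ∀ b ∈ B, p b = dist (C.x b) (C.x z) - δ := by
    intro b hb
    show (if b = z then δ else if b ∈ B then _ else _) = _
    rw [if_neg (fun h : b = z => hzB (h ▸ hb)), if_pos hb]
  have hD : ∀ u, u ∈ insert r (insert z (A ∪ B)) ↔ u = r ∨ u = z ∨ u ∈ A ∨ u ∈ B := by
    intro u
    rw [Finset.mem_insert, Finset.mem_insert, Finset.mem_union]
  let f : IPF C :=
    { D := insert r (insert z (A ∪ B))
      s := sd
      p := p
      sub := by
        intro u hu
        rcases (hD u).1 hu with rfl | rfl | hu | hu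
        · omega
        · exact hz
        · have := hAr u hu; omega
        · have := hrB u hu; omega
      feas := by
        intro u hu v hv h1 h2
        have hu' : u = r ∨ u = z := by
          rcases (hD u).1 hu with h | h | hu | hu
          · exact Or.inl h
          · exact Or.inr h
          · rw [s3 u hu] at h1; exact absurd h1 (by simp)
          · rw [s4 u hu] at h1; exact absurd h1 (by simp)
        have hv' : v ∈ A ∨ v ∈ B := by
          rcases (hD v).1 hv with h | h | h | h
          · rw [h, s1] at h2; exact absurd h2 (by simp)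
          · rw [h, s2] at h2; exact absurd h2 (by simp)
          · exact Or.inl h
          · exact Or.inr h
        rcases hu' with rfl | rfl
        · rcases hv' with hv' | hv'
          · rw [p1, p3 v hv', zero_add, dist_comm]
          · rw [p1, p4 v hv', zero_add]
            have h3 := key2 v hv'
            have h4 := dist_comm (C.x v) (C.x u)
            linarith
        · rcases hv' with hv' | hv'
          · rw [p2, p3 v hv']
            have h3 := key1 v hv'
            have h4 := dist_comm (C.x v) (C.x u)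
            linarith
          · rw [p2, p4 v hv', dist_comm (C.x u) (C.x v)]
            linarith
      tight := by
        intro u hu
        rcases (hD u).1 hu with rfl | rfl | hu | hu
        · refine ⟨a0, (hD a0).2 (Or.inr (Or.inr (Or.inl ha0))), by rw [s1, s3 a0 ha0]; simp, ?_⟩
          rw [p1, p3 a0 ha0, zero_add, dist_comm]
        · refine ⟨b0, (hD b0).2 (Or.inr (Or.inr (Or.inr hb0))), by rw [s2, s4 b0 hb0]; simp, ?_⟩
          rw [p2, p4 b0 hb0, dist_comm (C.x u) (C.x b0)]
          ring
        · refine ⟨r, (hD r).2 (Or.inl rfl), by rw [s1, s3 u hu]; simp, ?_⟩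
          rw [p1, p3 u hu, add_zero]
        · refine ⟨z, (hD z).2 (Or.inr (Or.inl rfl)), by rw [s2, s4 u hu]; simp, ?_⟩
          rw [p2, p4 u hu]
          ring }
  refine ⟨f, ?_, ?_⟩
  · intro a ha
    refine ⟨(hD a).2 (Or.inr (Or.inr (Or.inl ha))), (hD r).2 (Or.inl rfl), ?_, ?_⟩
    · show sd a ≠ sd r
      rw [s1, s3 a ha]; simp
    · show p a + p r = _
      rw [p1, p3 a ha, add_zero]
  · intro b hb
    refine ⟨(hD b).2 (Or.inr (Or.inr (Or.inr hb))), (hD z).2 (Or.inr (Or.inl rfl)), ?_, ?_⟩
    · show sd b ≠ sd z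
      rw [s2, s4 b hb]; simp
    · show p b + p z = _
      rw [p2, p4 b hb]; ring

end Pool.Agent.Lib.MP_293cc0_an.EG
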