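import Pool.Agent.Lib.MP_293cc0_an.EG.Frs

/-!
# MP_293cc0_an, Theorem E: adding a root and adding a node to a forest
-/

set_option autoImplicit false

namespace Pool.Agent.Lib.MP_293cc0_an.EG

open Finset

variable {X : Type} [MetricSpace X] {N : ℕ}

theorem Frs.addRoot {C : Comb X N} {s t1 : ℕ} {S : Finset ℕ} {h : ℕ} {id pa r : ℕ → ℕ}
    {tok : ℕ → ℕ → ℕ} (F : Frs C s t1 S h id pa r tok) {v : ℕ} (hv : ∀ u ∈ S, u < v)
    (hvs : v < s) (hvt : v ≤ t1) (tk : ℕ → ℕ)
    (htk : ∀ j, j < h → tk j ∈ S ∧ id (tk j) = j ∧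
      ∀ c, s ≤ c → c + 1 < N → C.e (tk j) v ≤ C.e v c) :
    Frs C s t1 (insert v S) (h + 1) (Function.update id v h) pa (Function.update r h v)
      (Function.update tok v tk) := by
  have hne : ∀ u ∈ S, u ≠ v := fun u hu => ne_of_lt (hv u hu)
  have hid : ∀ u ∈ S, Function.update id v h u = id u := fun u hu =>
    Function.update_of_ne (hne u hu) _ _
  have hidv : Function.update id v h v = h := Function.update_self _ _ _
  have hr : ∀ i, i < h → Function.update r h v i = r i := fun i hi =>
    Function.update_of_ne (ne_of_lt hi) _ _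
  have hrh : Function.update r h v h = v := Function.update_self _ _ _
  have htok : ∀ u ∈ S, Function.update tok v tk u = tok u := fun u hu =>
    Function.update_of_ne (hne u hu) _ _
  have htokv : Function.update tok v tk v = tk := Function.update_self _ _ _
  refine ⟨?_, ?_, ?_, ?_, ?_, ?_, ?_, ?_, ?_⟩
  · intro u hu
    rcases Finset.mem_insert.1 hu with rfl | hu
    · exact hvt
    · exact F.le u hu
  · intro u hu
    rcases Finset.mem_insert.1 hu with rfl | hu
    · rw [hidv]; omega
    · rw [hid u hu]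
      have := F.idlt u hu
      omega
  · intro i hi
    by_cases hih : i = h
    · subst hih
      rw [hrh, hidv]
      exact ⟨Finset.mem_insert_self _ _, rfl, hvs⟩
    · obtain ⟨a1, a2, a3⟩ := F.rS i (by omega)
      rw [hr i (by omega), hid _ a1]
      exact ⟨Finset.mem_insert_of_mem a1, a2, a3⟩
  · intro i j hij hj
    by_cases hjh : j = h
    · subst hjh
      rw [hrh, hr i hij]
      exact hv _ (F.rS i hij).1
    · rw [hr i (by omega), hr j (by omega)]
      exact F.rmono i j hij (by omega)
  · intro u hu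
    rcases Finset.mem_insert.1 hu with rfl | hu
    · rw [hidv, hrh]
    · rw [hid u hu, hr _ (F.idlt u hu)]
      exact F.rmin u hu
  · intro i hi j hji
    by_cases hih : i = h
    · subst hih
      rw [hrh, htokv]
      obtain ⟨a1, a2, a3⟩ := htk j hji
      rw [hid _ a1]
      exact ⟨Finset.mem_insert_of_mem a1, hv _ a1, a2, a3⟩
    · obtain ⟨a1, a2, a3, a4⟩ := F.tokr i (by omega) j hji
      rw [hr i (by omega), htok _ (F.rS i (by omega)).1, hid _ a1]
      exact ⟨Finset.mem_insert_of_mem a1, a2, a3, a4⟩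
  · intro u hu hur
    rcases Finset.mem_insert.1 hu with rfl | hu
    · rw [hidv, hrh] at hur
      exact absurd rfl hur
    · rw [hid u hu, hr _ (F.idlt u hu)] at hur
      obtain ⟨a1, a2, a3, a4⟩ := F.par u hu hur
      rw [hid u hu, hid _ a1, htok u hu]
      exact ⟨Finset.mem_insert_of_mem a1, a2, a3, a4⟩
  · intro u hu hur
    rcases Finset.mem_insert.1 hu with rfl | hu
    · rw [hidv, hrh] at hur
      exact absurd rfl hur
    · rw [hid u hu, hr _ (F.idlt u hu)] at hur
      exact F.alive u hu hur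
  · intro u hu hur i hi hri
    rcases Finset.mem_insert.1 hu with rfl | hu
    · rw [hidv, hrh] at hur
      exact absurd rfl hur
    · rw [hid u hu, hr _ (F.idlt u hu)] at hur
      by_cases hih : i = h
      · subst hih
        rw [hrh] at hri
        have := hv u hu
        omega
      · rw [hr i (by omega)] at hri
        obtain ⟨a1, a2, a3, a4⟩ := F.tokn u hu hur i (by omega) hri
        rw [htok u hu, hid _ a1]
        exact ⟨Finset.mem_insert_of_mem a1, a2, a3, a4⟩

theorem Frs.addNode {C : Comb X N} {s t1 : ℕ} {S : Finset ℕ} {h : ℕ} {id pa r : ℕ → ℕ}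
    {tok : ℕ → ℕ → ℕ} (F : Frs C s t1 S h id pa r tok) {v : ℕ} (hv : ∀ u ∈ S, u < v)
    (hvt : v ≤ t1) {q : ℕ} (hq : q ∈ S)
    (hal : ∀ c, v < c → c ≤ t1 → C.e q c ≤ C.e q v ∧ C.e v c ≤ C.e q v) (tk : ℕ → ℕ)
    (htk : ∀ i, i < h → tk i ∈ S ∧ id (tk i) = i ∧ C.e (tk i) v ≤ C.e q v)
    (htq : tk (id q) = q) :
    Frs C s t1 (insert v S) h (Function.update id v (id q)) (Function.update pa v q) r
      (Function.update tok v tk) := by
  have hne : ∀ u ∈ S, u ≠ v := fun u hu => ne_of_lt (hv u hu)
  have hid : ∀ u ∈ S, Function.update id v (id q) u = id u := fun u hu =>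
    Function.update_of_ne (hne u hu) _ _
  have hidv : Function.update id v (id q) v = id q := Function.update_self _ _ _
  have hpa : ∀ u ∈ S, Function.update pa v q u = pa u := fun u hu =>
    Function.update_of_ne (hne u hu) _ _
  have hpav : Function.update pa v q v = q := Function.update_self _ _ _
  have htok : ∀ u ∈ S, Function.update tok v tk u = tok u := fun u hu =>
    Function.update_of_ne (hne u hu) _ _
  have htokv : Function.update tok v tk v = tk := Function.update_self _ _ _
  refine ⟨?_, ?_, ?_, F.rmono, ?_, ?_, ?_, ?_, ?_⟩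
  · intro u hu
    rcases Finset.mem_insert.1 hu with rfl | hu
    · exact hvt
    · exact F.le u hu
  · intro u hu
    rcases Finset.mem_insert.1 hu with rfl | hu
    · rw [hidv]; exact F.idlt q hq
    · rw [hid u hu]
      exact F.idlt u hu
  · intro i hi
    obtain ⟨a1, a2, a3⟩ := F.rS i hi
    rw [hid _ a1]
    exact ⟨Finset.mem_insert_of_mem a1, a2, a3⟩
  · intro u hu
    rcases Finset.mem_insert.1 hu with rfl | hu
    · rw [hidv]
      exact le_of_lt (lt_of_le_of_lt (F.rmin q hq) (hv q hq))
    · rw [hid u hu]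
      exact F.rmin u hu
  · intro i hi j hji
    obtain ⟨a1, a2, a3, a4⟩ := F.tokr i hi j hji
    rw [htok _ (F.rS i hi).1, hid _ a1]
    exact ⟨Finset.mem_insert_of_mem a1, a2, a3, a4⟩
  · intro u hu hur
    rcases Finset.mem_insert.1 hu with rfl | hu
    · rw [hpav, hidv, htokv, hid q hq]
      exact ⟨Finset.mem_insert_of_mem hq, hv q hq, rfl, htq⟩
    · rw [hid u hu] at hur
      obtain ⟨a1, a2, a3, a4⟩ := F.par u hu hur
      rw [hid u hu, hpa u hu, hid _ a1, htok u hu]
      exact ⟨Finset.mem_insert_of_mem a1, a2, a3, a4⟩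
  · intro u hu hur
    rcases Finset.mem_insert.1 hu with rfl | hu
    · rw [hpav]
      exact hal
    · rw [hid u hu] at hur
      rw [hpa u hu]
      exact F.alive u hu hur
  · intro u hu hur i hi hri
    rcases Finset.mem_insert.1 hu with rfl | hu
    · rw [hpav, htokv]
      obtain ⟨a1, a2, a3⟩ := htk i hi
      rw [hid _ a1]
      exact ⟨Finset.mem_insert_of_mem a1, hv _ a1, a2, a3⟩
    · rw [hid u hu] at hur
      obtain ⟨a1, a2, a3, a4⟩ := F.tokn u hu hur i hi hri
      rw [htok u hu, hid _ a1, hpa u hu]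
      exact ⟨Finset.mem_insert_of_mem a1, a2, a3, a4⟩

end Pool.Agent.Lib.MP_293cc0_an.EG
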